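import Pool.Agent.Q322.DS.Red

/-!
# Dual Separator for Two Terminals is W[1]-hard
-/

namespace Pool.Agent.Results.MP_959b39_lc.TwoTerminalsW1

open Pool.Agent.NPC Pool.Agent.H633R2 Pool.Agent.Q322.DS

/-- Dual Separator for Two Terminals, parameterized by the size of the separator, is W[1]-hard;
hence if it were fixed-parameter tractable, then all problems in W[1] would be. -/
theorem result :
    W1Hard (fun x : List (List ℕ) × ℕ × ℕ × ℕ => x.2.2.2) DualSep ∧
    (IsFpt (fun x : List (List ℕ) × ℕ × ℕ × ℕ => x.2.2.2) DualSep →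
      ∀ (α : Type) [TEnc α] (κ : α → ℕ) (P : α → Prop), InW1 κ P → IsFpt κ P) :=
  ⟨w1, fun h _ _ _ _ hP => w1.collapse h hP⟩

end Pool.Agent.Results.MP_959b39_lc.TwoTerminalsW1
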